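import Pool.Agent.Helper34.PU.Goals

set_option autoImplicit false

open Finset
open scoped Classical

namespace Pool.Agent.Helper67.PU

open Pool.Agent.Helper34.PU

/-- expectation of the indicator of a property of (list, cut set) -/
noncomputable def Ph {V : Type} (R : RF V) (P : List V → Finset V → Prop) : ℝ :=
  ∑ ω, if P (R.F ω) (R.Y ω) then R.w ω else 0

theorem In_eq {V : Type} (R : RF V) (z : V) : R.In z = Ph R (fun F _ => z ∈ F) := by
  unfold RF.In Ph
  refine Finset.sum_congr rfl fun ω _ => ?_
  by_cases h : z ∈ R.F ω <;> simp [h]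

theorem Bef_eq {V : Type} (R : RF V) (a b : V) :
    R.Bef a b = Ph R (fun F _ => [a, b].Sublist F) := by
  unfold RF.Bef Ph
  refine Finset.sum_congr rfl fun ω _ => ?_
  by_cases h : [a, b].Sublist (R.F ω) <;> simp [h]

theorem Cut_eq {V : Type} (R : RF V) (z : V) : R.Cut z = Ph R (fun _ Y => z ∈ Y) := by
  unfold RF.Cut Ph
  refine Finset.sum_congr rfl fun ω _ => ?_
  by_cases h : z ∈ R.Y ω <;> simp [h]

theorem Ph_true {V : Type} (R : RF V) (P : List V → Finset V → Prop)
    (h : ∀ ω, P (R.F ω) (R.Y ω)) : Ph R P = 1 := by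
  unfold Ph
  rw [← R.w_sum]
  refine Finset.sum_congr rfl fun ω _ => ?_
  rw [if_pos (h ω)]

theorem Ph_false {V : Type} (R : RF V) (P : List V → Finset V → Prop)
    (h : ∀ ω, ¬ P (R.F ω) (R.Y ω)) : Ph R P = 0 := by
  unfold Ph
  refine Finset.sum_eq_zero fun ω _ => ?_
  rw [if_neg (h ω)]

theorem Ph_congr {V : Type} (R : RF V) (P P' : List V → Finset V → Prop)
    (h : ∀ ω, P (R.F ω) (R.Y ω) ↔ P' (R.F ω) (R.Y ω)) : Ph R P = Ph R P' := by
  unfold Ph
  refine Finset.sum_congr rfl fun ω _ => ?_
  by_cases h1 : P (R.F ω) (R.Y ω)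
  · rw [if_pos h1, if_pos ((h ω).mp h1)]
  · rw [if_neg h1, if_neg (fun h2 => h1 ((h ω).mpr h2))]

theorem Ph_nonneg {V : Type} (R : RF V) (P : List V → Finset V → Prop) : 0 ≤ Ph R P := by
  unfold Ph
  refine Finset.sum_nonneg fun ω _ => ?_
  split_ifs
  · exact R.w_nonneg ω
  · exact le_refl _

/-- the mixture -/
noncomputable def mix {V : Type} (Z : Finset V) (c : V → ℝ) (R : V → RF V) (E : RF V)
    (hc : ∀ y ∈ Z, 0 ≤ c y) (hs : ∑ y ∈ Z, c y ≤ 1) : RF V where
  Ω := (Σ y : {y // y ∈ Z}, (R y.1).Ω) ⊕ E.Ω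
  w := Sum.elim (fun p => c p.1.1 * (R p.1.1).w p.2) (fun ω => (1 - ∑ y ∈ Z, c y) * E.w ω)
  w_nonneg := by
    rintro (p | ω)
    · exact mul_nonneg (hc _ p.1.2) ((R p.1.1).w_nonneg _)
    · exact mul_nonneg (by linarith) (E.w_nonneg _)
  w_sum := by
    rw [Fintype.sum_sum_type]
    simp only [Sum.elim_inl, Sum.elim_inr]
    rw [Fintype.sum_sigma]
    simp only [← Finset.mul_sum, RF.w_sum, mul_one]
    rw [Finset.sum_coe_sort Z c]
    ring
  F := Sum.elim (fun p => p.1.1 :: (R p.1.1).F p.2) E.F
  Y := Sum.elim (fun p => (R p.1.1).Y p.2) E.Y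

theorem Ph_mix {V : Type} (Z : Finset V) (c : V → ℝ) (R : V → RF V) (E : RF V)
    (hc : ∀ y ∈ Z, 0 ≤ c y) (hs : ∑ y ∈ Z, c y ≤ 1) (P : List V → Finset V → Prop) :
    Ph (mix Z c R E hc hs) P = ∑ y ∈ Z, c y * Ph (R y) (fun F Y => P (y :: F) Y) +
      (1 - ∑ y ∈ Z, c y) * Ph E P := by
  have h1 : Ph (mix Z c R E hc hs) P =
      ∑ ω : (Σ y : {y // y ∈ Z}, (R y.1).Ω) ⊕ E.Ω,
        (if P ((Sum.elim (fun p => p.1.1 :: (R p.1.1).F p.2) E.F : _ → List V) ω)
          ((Sum.elim (fun p => (R p.1.1).Y p.2) E.Y : _ → Finset V) ω) then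
          (Sum.elim (fun p => c p.1.1 * (R p.1.1).w p.2)
            (fun ω => (1 - ∑ y ∈ Z, c y) * E.w ω) : _ → ℝ) ω else 0) := rfl
  rw [h1, Fintype.sum_sum_type]
  simp only [Sum.elim_inl, Sum.elim_inr]
  rw [Fintype.sum_sigma]
  congr 1
  · rw [← Finset.sum_coe_sort Z (fun y => c y * Ph (R y) (fun F Y => P (y :: F) Y))]
    refine Finset.sum_congr rfl fun y _ => ?_
    unfold Ph
    rw [Finset.mul_sum]
    refine Finset.sum_congr rfl fun ω _ => ?_
    split_ifs <;> simp
  · unfold Ph
    rw [Finset.mul_sum]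
    refine Finset.sum_congr rfl fun ω _ => ?_
    split_ifs <;> simp

/-- contribution of branch `y` to `In` -/
noncomputable def Iy {V : Type} (R : V → RF V) (y a : V) : ℝ := if y = a then 1 else (R y).In a

/-- contribution of branch `y` to `Bef` -/
noncomputable def By {V : Type} (R : V → RF V) (y a b : V) : ℝ :=
  if y = a then (R y).In b else if y = b then 0 else (R y).Bef a b

theorem step : StepStmt := by
  intro V H θ h Z ℓ c R E hθ hdisj hadj hc hs hR hIn hlo hE
  have hs1 : 0 ≤ 1 - ∑ y ∈ Z, c y := by linarith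
  have hzh : ∀ y ∈ Z, y ∉ h := fun y hy hyh => (Finset.disjoint_left.mp hdisj) hyh hy
  have hyF : ∀ y ∈ Z, ∀ ω, y ∉ (R y).F ω := fun y hy ω hyω =>
    (hR y hy).disj ω y hyω (Finset.mem_insert_self _ _)
  have hI : ∀ z, (mix Z c R E hc hs).In z =
      ∑ y ∈ Z, c y * Iy R y z + (1 - ∑ y ∈ Z, c y) * E.In z := by
    intro z
    rw [In_eq, Ph_mix, In_eq E]
    congr 1
    refine Finset.sum_congr rfl fun y hy => ?_
    congr 1
    unfold Iy
    split_ifs with h1
    · exact Ph_true _ _ fun ω => List.mem_cons.mpr (Or.inl h1.symm)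
    · rw [In_eq]
      refine Ph_congr _ _ _ fun ω => ?_
      rw [List.mem_cons]
      constructor
      · rintro (h2 | h2)
        · exact absurd h2.symm h1
        · exact h2
      · exact fun h2 => Or.inr h2
  have hB : ∀ a b, a ≠ b → (mix Z c R E hc hs).Bef a b =
      ∑ y ∈ Z, c y * By R y a b + (1 - ∑ y ∈ Z, c y) * E.Bef a b := by
    intro a b hab
    rw [Bef_eq, Ph_mix, Bef_eq E]
    congr 1
    refine Finset.sum_congr rfl fun y hy => ?_
    congr 1
    unfold By
    split_ifs with h1 h2
    · rw [In_eq]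
      refine Ph_congr _ _ _ fun ω => ?_
      rw [← h1, List.cons_sublist_cons, List.singleton_sublist]
    · refine Ph_false _ _ fun ω h3 => ?_
      rw [List.sublist_cons_iff] at h3
      rcases h3 with h3 | ⟨r, h3, _⟩
      · have h4 : b ∈ (R y).F ω := h3.subset (by simp)
        rw [← h2] at h4
        exact hyF y hy ω h4
      · rw [List.cons.injEq] at h3
        exact h1 h3.1.symm
    · rw [Bef_eq]
      refine Ph_congr _ _ _ fun ω => ?_
      rw [List.sublist_cons_iff]
      constructor
      · rintro (h3 | ⟨r, h3, _⟩)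
        · exact h3
        · rw [List.cons.injEq] at h3
          exact absurd h3.1.symm h1
      · exact fun h3 => Or.inl h3
  have hC : ∀ z, (mix Z c R E hc hs).Cut z =
      ∑ y ∈ Z, c y * (R y).Cut z + (1 - ∑ y ∈ Z, c y) * E.Cut z := by
    intro z
    rw [Cut_eq, Ph_mix, Cut_eq E]
    congr 1
    refine Finset.sum_congr rfl fun y hy => ?_
    rw [Cut_eq]
  refine ⟨mix Z c R E hc hs, ⟨?_, ?_, ?_, ?_, ?_, ?_⟩, ?_, hC⟩
  · -- nodup
    rintro (p | ω)
    · change (p.1.1 :: (R p.1.1).F p.2).Nodup
      rw [List.nodup_cons]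
      exact ⟨hyF _ p.1.2 _, (hR _ p.1.2).nodup _⟩
    · exact hE.nodup ω
  · -- disj
    rintro (p | ω) z hz
    · change z ∈ (p.1.1 :: (R p.1.1).F p.2) at hz
      rw [List.mem_cons] at hz
      rcases hz with rfl | hz
      · exact hzh _ p.1.2
      · exact fun hzh' => (hR _ p.1.2).disj _ z hz (Finset.mem_insert_of_mem hzh')
    · exact hE.disj ω z hz
  · -- up
    intro a b ha hb hadj'
    have hab : a ≠ b := hadj'.ne
    rw [hB a b hab, hI a, hB b a hab.symm]
    have h1 : ∀ y ∈ Z, c y * By R y a b ≤ θ * (c y * Iy R y a - c y * By R y b a) := by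
      intro y hy
      have h2 : By R y a b ≤ θ * (Iy R y a - By R y b a) := by
        unfold By Iy
        by_cases hya : y = a
        · subst hya
          rw [if_pos rfl, if_pos rfl, if_neg hab, if_pos rfl, sub_zero, mul_one]
          exact hIn y hy b (by
            rw [Finset.mem_insert]; rintro (h3 | h3)
            · exact hab h3.symm
            · exact hb h3)
        · by_cases hyb : y = b
          · subst hyb
            rw [if_neg hya, if_pos rfl, if_neg hya, if_pos rfl, sub_self, mul_zero]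
          · rw [if_neg hya, if_neg hyb, if_neg hya, if_neg hyb, if_neg hya]
            refine (hR y hy).up a b ?_ ?_ hadj'
            · rw [Finset.mem_insert]; rintro (h3 | h3)
              · exact hya h3.symm
              · exact ha h3
            · rw [Finset.mem_insert]; rintro (h3 | h3)
              · exact hyb h3.symm
              · exact hb h3
      calc c y * By R y a b ≤ c y * (θ * (Iy R y a - By R y b a)) :=
            mul_le_mul_of_nonneg_left h2 (hc y hy)
        _ = _ := by ring
    have h3 := Finset.sum_le_sum h1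
    rw [← Finset.mul_sum, Finset.sum_sub_distrib] at h3
    have h4 := mul_le_mul_of_nonneg_left (hE.up a b ha hb hadj') hs1
    nlinarith
  · -- lo
    intro a b ha hb hadj'
    have hab : a ≠ b := hadj'.ne
    rw [hB a b hab, hI a, hB b a hab.symm, hC a]
    have h1 : ∀ y ∈ Z, θ * (c y * Iy R y a - c y * By R y b a - c y * (R y).Cut a) ≤
        c y * By R y a b := by
      intro y hy
      have h2 : θ * (Iy R y a - By R y b a - (R y).Cut a) ≤ By R y a b := by
        unfold By Iy
        by_cases hya : y = a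
        · subst hya
          rw [if_pos rfl, if_pos rfl, if_neg hab, if_pos rfl, sub_zero]
          exact hlo y hy b (by
            rw [Finset.mem_insert]; rintro (h3 | h3)
            · exact hab h3.symm
            · exact hb h3) hadj'
        · by_cases hyb : y = b
          · subst hyb
            rw [if_neg hya, if_pos rfl, if_neg hya, if_pos rfl, sub_self]
            have : 0 ≤ (R y).Cut a := by rw [Cut_eq]; exact Ph_nonneg _ _
            nlinarith
          · rw [if_neg hya, if_neg hyb, if_neg hya, if_neg hya, if_neg hyb]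
            refine (hR y hy).lo a b ?_ ?_ hadj'
            · rw [Finset.mem_insert]; rintro (h3 | h3)
              · exact hya h3.symm
              · exact ha h3
            · rw [Finset.mem_insert]; rintro (h3 | h3)
              · exact hyb h3.symm
              · exact hb h3
      calc θ * (c y * Iy R y a - c y * By R y b a - c y * (R y).Cut a) =
            c y * (θ * (Iy R y a - By R y b a - (R y).Cut a)) := by ring
        _ ≤ c y * By R y a b := mul_le_mul_of_nonneg_left h2 (hc y hy)
    have h3 := Finset.sum_le_sum h1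
    rw [← Finset.mul_sum, Finset.sum_sub_distrib, Finset.sum_sub_distrib] at h3
    have h4 := mul_le_mul_of_nonneg_left (hE.lo a b ha hb hadj') hs1
    nlinarith
  · -- link
    rintro (p | ω) b hb
    · change b ∈ (p.1.1 :: (R p.1.1).F p.2) at hb
      change ∃ a, H.Adj a b ∧ (a ∈ h ∨ [a, b].Sublist (p.1.1 :: (R p.1.1).F p.2))
      rw [List.mem_cons] at hb
      rcases hb with rfl | hb
      · obtain ⟨a, ha, hab⟩ := hadj _ p.1.2
        exact ⟨a, hab, Or.inl ha⟩
      · obtain ⟨a, hab, h1⟩ := (hR _ p.1.2).link _ b hb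
        refine ⟨a, hab, ?_⟩
        rcases h1 with h1 | h1
        · rw [Finset.mem_insert] at h1
          rcases h1 with rfl | h1
          · right
            rw [List.cons_sublist_cons, List.singleton_sublist]
            exact hb
          · exact Or.inl h1
        · right
          exact h1.trans (List.sublist_cons_self _ _)
    · exact hE.link ω b hb
  · -- len
    rintro (p | ω)
    · change (p.1.1 :: (R p.1.1).F p.2).length ≤ ℓ + 1
      rw [List.length_cons]
      have := (hR _ p.1.2).len p.2
      omega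
    · exact hE.len ω
  · -- In
    intro z _
    rw [hI z]
    congr 1
    by_cases hz : z ∈ Z
    · rw [if_pos hz, ← Finset.add_sum_erase Z _ hz]
      congr 1
      · unfold Iy
        rw [if_pos rfl, mul_one]
      · refine Finset.sum_congr rfl fun y hy => ?_
        unfold Iy
        rw [if_neg (Finset.ne_of_mem_erase hy)]
    · rw [if_neg hz, zero_add, Finset.erase_eq_of_notMem hz]
      refine Finset.sum_congr rfl fun y hy => ?_
      unfold Iy
      rw [if_neg (fun h1 : y = z => hz (h1 ▸ hy))]

end Pool.Agent.Helper67.PU
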